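import Pool.Agent.Helper70.SUB.SheetW
import Pool.Agent.Helper8.SUBK.U2K

/-!
Project SUBW, row CSTW: a small value of a sum at one place gives a relation with constant
coefficients.
-/

set_option autoImplicit false

namespace Pool.Agent.Helper8.SUBW

open Filter Finset Matrix Pool.Agent.Helper70.SUB Pool.Agent.Helper77.SUBK
  Pool.Agent.Helper70.SUBL Pool.Agent.Helper70.SUBW

section gen

variable {M : Type} [Field M] {ι : Type} [Fintype ι] [DecidableEq ι]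

theorem det_updI (i : ι) (b : ι → M) :
    ((1 : Matrix ι ι M).updateRow i b).det = b i := by
  have h := Matrix.cramer_transpose_apply (1 : Matrix ι ι M) b i
  rw [← h, Matrix.transpose_one, Matrix.cramer_one]
  rfl

theorem upd_neI (i i1 : ι) (b x : ι → M) (hi : i ≠ i1) :
    ((1 : Matrix ι ι M).updateRow i1 b).mulVec x i = x i := by
  show ((1 : Matrix ι ι M).updateRow i1 b) i ⬝ᵥ x = x i
  rw [Matrix.updateRow_ne hi]
  exact congrFun (Matrix.one_mulVec x) i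

theorem upd_selfI (i1 : ι) (b x : ι → M) :
    ((1 : Matrix ι ι M).updateRow i1 b).mulVec x i1 = ∑ k, b k * x k := by
  show ((1 : Matrix ι ι M).updateRow i1 b) i1 ⬝ᵥ x = _
  rw [Matrix.updateRow_self]
  rfl

end gen

/-- the forms: the identity, one row replaced at the place `(v, σ)` -/
noncomputable def fL {M : Type} [Field M] [NumberField M] {S : Finset ℕ} (P : PF S M)
    {ι : Type} [Fintype ι] [DecidableEq ι] (v : Option ℕ) (σ : M ≃ₐ[ℚ] M) (i₀ : ι) (b : ι → M)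
    (v' : Option ℕ) (σ' : M ≃ₐ[ℚ] M) : Matrix ι ι M :=
  open Classical in
  if v' = v ∧ (∀ z, P.nv v' (σ' z) = P.nv v' (σ z)) then (1 : Matrix ι ι M).updateRow i₀ b else 1

section forms

variable {M : Type} [Field M] [NumberField M] {S : Finset ℕ} (P : PF S M)
    {ι : Type} [Fintype ι] [DecidableEq ι] (v : Option ℕ) (σ : M ≃ₐ[ℚ] M) (i₀ : ι) (b : ι → M)

theorem fL_det (hb : b i₀ ≠ 0) (v' : Option ℕ) (σ' : M ≃ₐ[ℚ] M) :
    (fL P v σ i₀ b v' σ').det ≠ 0 := by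
  unfold fL
  split_ifs
  · rw [det_updI]
    exact hb
  · simp

theorem fL_con (v' : Option ℕ) (σ' σ'' : M ≃ₐ[ℚ] M)
    (hσ : ∀ x, P.nv v' (σ' x) = P.nv v' (σ'' x)) :
    fL P v σ i₀ b v' σ' = fL P v σ i₀ b v' σ'' := by
  unfold fL
  have h1 : (v' = v ∧ (∀ z, P.nv v' (σ' z) = P.nv v' (σ z))) ↔
      (v' = v ∧ (∀ z, P.nv v' (σ'' z) = P.nv v' (σ z))) := by
    constructor
    · rintro ⟨h, h'⟩
      exact ⟨h, fun z => (hσ z).symm.trans (h' z)⟩
    · rintro ⟨h, h'⟩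
      exact ⟨h, fun z => (hσ z).trans (h' z)⟩
  by_cases hc : v' = v ∧ (∀ z, P.nv v' (σ'' z) = P.nv v' (σ z))
  · rw [if_pos (h1.mpr hc), if_pos hc]
  · rw [if_neg (fun h => hc (h1.mp h)), if_neg hc]

/-- the product of the forms at a place -/
theorem fL_fac (x : ι → M) (hx : 0 < P.nv v (σ (x i₀))) (v' : Option ℕ) (σ' : M ≃ₐ[ℚ] M) :
    ∏ i, P.nv v' (σ' ((fL P v σ i₀ b v' σ').mulVec x i)) =
      (∏ i, P.nv v' (σ' (x i))) *
        (open Classical in if v' = v ∧ (∀ z, P.nv v' (σ' z) = P.nv v' (σ z)) then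
          P.nv v (σ (∑ i, b i * x i)) / P.nv v (σ (x i₀)) else 1) := by
  classical
  by_cases hc : v' = v ∧ (∀ z, P.nv v' (σ' z) = P.nv v' (σ z))
  · obtain ⟨hv, hσ⟩ := hc
    subst hv
    rw [if_pos ⟨rfl, hσ⟩]
    have hLv : fL P v' σ i₀ b v' σ' = (1 : Matrix ι ι M).updateRow i₀ b :=
      if_pos ⟨rfl, hσ⟩
    rw [hLv, ← Finset.mul_prod_erase Finset.univ _ (Finset.mem_univ i₀),
      ← Finset.mul_prod_erase Finset.univ (fun i => P.nv v' (σ' (x i))) (Finset.mem_univ i₀),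
      upd_selfI]
    have h3 : ∏ i ∈ Finset.univ.erase i₀,
        P.nv v' (σ' (((1 : Matrix ι ι M).updateRow i₀ b).mulVec x i)) =
        ∏ i ∈ Finset.univ.erase i₀, P.nv v' (σ' (x i)) := by
      refine Finset.prod_congr rfl fun i hi => ?_
      rw [upd_neI i i₀ b x (Finset.ne_of_mem_erase hi)]
    rw [h3, hσ, hσ]
    have h5 := hx.ne'
    field_simp
  · rw [if_neg hc, mul_one]
    have hLv : fL P v σ i₀ b v' σ' = 1 := if_neg hc
    rw [hLv, Matrix.one_mulVec]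

/-- the product of the forms over all places -/
theorem fL_prod (x : ι → M) (hv : v ∈ plc S) (hx : 0 < P.nv v (σ (x i₀)))
    (hr1 : P.nv v (σ (∑ i, b i * x i)) / P.nv v (σ (x i₀)) ≤ 1) :
    ∏ v' ∈ plc S, ∏ σ' : M ≃ₐ[ℚ] M, ∏ i, P.nv v' (σ' ((fL P v σ i₀ b v' σ').mulVec x i)) ≤
      (∏ v' ∈ plc S, ∏ σ' : M ≃ₐ[ℚ] M, ∏ i, P.nv v' (σ' (x i))) *
        (P.nv v (σ (∑ i, b i * x i)) / P.nv v (σ (x i₀))) := by
  classical
  set r : ℝ := P.nv v (σ (∑ i, b i * x i)) / P.nv v (σ (x i₀)) with hr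
  have hr0 : 0 ≤ r := div_nonneg (P.nn _ _) hx.le
  have htot : ∏ v' ∈ plc S, ∏ σ' : M ≃ₐ[ℚ] M, ∏ i,
      P.nv v' (σ' ((fL P v σ i₀ b v' σ').mulVec x i)) =
      (∏ v' ∈ plc S, ∏ σ' : M ≃ₐ[ℚ] M, ∏ i, P.nv v' (σ' (x i))) *
      ∏ v' ∈ plc S, ∏ σ' : M ≃ₐ[ℚ] M,
        (if v' = v ∧ (∀ z, P.nv v' (σ' z) = P.nv v' (σ z)) then r else 1) := by
    rw [← Finset.prod_mul_distrib]
    refine Finset.prod_congr rfl fun v' _ => ?_
    rw [← Finset.prod_mul_distrib]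
    refine Finset.prod_congr rfl fun σ' _ => ?_
    exact fL_fac P v σ i₀ b x hx v' σ'
  rw [htot]
  have hf0 : ∀ (v' : Option ℕ) (σ' : M ≃ₐ[ℚ] M),
      0 ≤ (if v' = v ∧ (∀ z, P.nv v' (σ' z) = P.nv v' (σ z)) then r else 1) := by
    intro v' σ'
    split_ifs
    · exact hr0
    · exact zero_le_one
  have hf1 : ∀ (v' : Option ℕ) (σ' : M ≃ₐ[ℚ] M),
      (if v' = v ∧ (∀ z, P.nv v' (σ' z) = P.nv v' (σ z)) then r else 1) ≤ 1 := by
    intro v' σ'
    split_ifs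
    · exact hr1
    · exact le_rfl
  have h1 := Pool.Agent.Helper8.SUBK.prod_le_mem (plc S) (fun v' => ∏ σ' : M ≃ₐ[ℚ] M,
    (if v' = v ∧ (∀ z, P.nv v' (σ' z) = P.nv v' (σ z)) then r else 1))
    (fun v' _ => Finset.prod_nonneg fun σ' _ => hf0 v' σ')
    (fun v' _ => Finset.prod_le_one (fun σ' _ => hf0 v' σ') (fun σ' _ => hf1 v' σ')) v hv
  have h2 := Pool.Agent.Helper8.SUBK.prod_le_mem (Finset.univ : Finset (M ≃ₐ[ℚ] M)) (fun σ' =>
    (if v = v ∧ (∀ z, P.nv v (σ' z) = P.nv v (σ z)) then r else 1))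
    (fun σ' _ => hf0 v σ') (fun σ' _ => hf1 v σ') σ (Finset.mem_univ _)
  have h3 : (if v = v ∧ (∀ z, P.nv v (σ z) = P.nv v (σ z)) then r else 1) = r :=
    if_pos ⟨rfl, fun z => rfl⟩
  refine mul_le_mul_of_nonneg_left (h1.trans (h2.trans h3.le)) ?_
  exact Finset.prod_nonneg fun v' _ => Finset.prod_nonneg fun σ' _ =>
    Finset.prod_nonneg fun i _ => P.nn _ _

end forms

theorem CSTW (hSUB : ST_SUBTU) (hSLW : ST_SLW) (hPRK : ST_PRK) : ST_CSTW := by
  intro M _ _ _ S P φ X ι _ _ c u η v σ i₀ hSp hX hc hc0 hu hv hη hsm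
  classical
  obtain ⟨-, -, -, -, s5, s6, -, -, -, -, -, s12, -⟩ := hSLW M S P φ X hSp hX
  obtain ⟨-, hpfS, -⟩ := hPRK M S P hSp
  -- exponents
  have hA : ∀ i, ∃ A : ℝ, 0 < A ∧ ∀ᶠ j in (φ : Filter ℕ), HB P (X j ^ A) (u i j) :=
    fun i => (hu i).2
  choose A hA0 hAu using hA
  set T : ℕ := (plc S).card * (Fintype.card (M ≃ₐ[ℚ] M) * Fintype.card ι) with hT
  set δ : ℝ := η / (2 * ((T : ℝ) + 1)) with hδ
  have hT0 : (0 : ℝ) ≤ T := Nat.cast_nonneg T
  have hδ0 : 0 < δ := by positivity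
  have hδT : δ * ((T : ℝ) + 1) = η / 2 := by
    rw [hδ]
    field_simp
  have hX1 : ∀ᶠ j in (φ : Filter ℕ), (1 : ℝ) ≤ X j := hX.eventually_ge_atTop 1
  have hSV : ∀ᶠ j in (φ : Filter ℕ), ∀ i, SV S (u i j) :=
    Filter.eventually_all.mpr fun i => (hu i).1
  have hcs : ∀ (ε : ℝ), 0 < ε → ∀ᶠ j in (φ : Filter ℕ), ∀ v' ∈ plc S, ∀ (σ' : M ≃ₐ[ℚ] M) (i : ι),
      P.nv v' (σ' (c i j)) ≤ X j ^ ε := by
    intro ε hε
    rw [Filter.eventually_all_finset]
    intro v' hv'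
    rw [Filter.eventually_all]
    intro σ'
    rw [Filter.eventually_all]
    intro i
    exact s5 (c i) (hc i) v' hv' σ' ε hε
  have hAall : ∀ᶠ j in (φ : Filter ℕ), ∀ i, HB P (X j ^ A i) (u i j) :=
    Filter.eventually_all.mpr hAu
  have hlow : ∀ᶠ j in (φ : Filter ℕ), X j ^ (-δ) ≤ P.nv v (σ (c i₀ j)) :=
    s6 (c i₀) (hc i₀) (hc0 i₀) v hv σ δ hδ0
  have hne : ∀ᶠ j in (φ : Filter ℕ), c i₀ j ≠ 0 := hc0 i₀
  obtain ⟨a, ha, hrel⟩ := hSUB M S P ι (fL P v σ i₀ (fun _ => 1)) (η / 2) (1 + ∑ i, A i) φ X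
    (fun j i => c i j * u i j) ⟨i₀⟩ hSp
    (fun v' _ σ' => fL_det P v σ i₀ _ one_ne_zero v' σ')
    (fun v' _ σ' σ'' h => fL_con P v σ i₀ _ v' σ' σ'' h) (by positivity) hX
    (by
      intro ε' hε'
      filter_upwards [s12 ι Finset.univ c (fun i _ => hc i) ε' hε', hSV] with j hD hj
      obtain ⟨D, hD0, hDle, hDi⟩ := hD
      refine ⟨D, hD0, hDle, fun i => ?_⟩
      obtain ⟨n, hn, hni⟩ := (hj i).2.1
      refine ⟨n, hn, ?_⟩
      have h1 := (hDi i (Finset.mem_univ i)).mul hni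
      have h2 : (n : M) * ((D : M) * (c i j * u i j)) = (D : M) * c i j * ((n : M) * u i j) := by
        ring
      rw [h2]
      exact h1)
    (by
      filter_upwards [hcs 1 one_pos, hAall, hX1] with j h1 h2 h3
      intro v' hv' σ' i
      rw [map_mul, P.mul v' hv', Real.rpow_add (by linarith)]
      refine mul_le_mul (h1 v' hv' σ' i) ?_ (P.nn _ _) (Real.rpow_nonneg (by linarith) _)
      refine (h2 i v' hv' σ').trans ?_
      apply Real.rpow_le_rpow_of_exponent_le h3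
      exact Finset.single_le_sum (f := A) (fun k _ => (hA0 k).le) (Finset.mem_univ i))
    (by
      filter_upwards [hcs δ hδ0, hX1, hSV, hlow, hne, hsm] with j h1 h3 h4 h5 h6 h7
      have hXp : 0 < X j := by linarith
      have hunz : ∀ i, u i j ≠ 0 := fun i => (h4 i).1
      have hcp : 0 < P.nv v (σ (c i₀ j)) := lt_of_lt_of_le (Real.rpow_pos_of_pos hXp _) h5
      have hup : 0 < P.nv v (σ (u i₀ j)) := by
        refine P.pos v hv _ ?_
        intro h0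
        exact hunz i₀ ((map_eq_zero_iff σ σ.injective).mp h0)
      have hxp : 0 < P.nv v (σ (c i₀ j * u i₀ j)) := by
        rw [map_mul, P.mul v hv]
        exact mul_pos hcp hup
      have hone : (∑ i, (fun _ : ι => (1 : M)) i * (c i j * u i j)) = ∑ i, c i j * u i j :=
        Finset.sum_congr rfl fun i _ => one_mul _
      have hr : P.nv v (σ (∑ i, (fun _ : ι => (1 : M)) i * (c i j * u i j))) /
          P.nv v (σ (c i₀ j * u i₀ j)) ≤ X j ^ (δ - η) := by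
        rw [hone, div_le_iff₀ hxp, map_mul, P.mul v hv]
        refine h7.trans ?_
        have e1 : X j ^ (δ - η) = X j ^ (-η) * X j ^ δ := by
          rw [← Real.rpow_add hXp]
          congr 1
          ring
        have e2 : (1 : ℝ) ≤ X j ^ δ * P.nv v (σ (c i₀ j)) := by
          calc (1 : ℝ) = X j ^ δ * X j ^ (-δ) := by
                rw [← Real.rpow_add hXp, add_neg_cancel, Real.rpow_zero]
            _ ≤ _ := mul_le_mul_of_nonneg_left h5 (Real.rpow_nonneg hXp.le _)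
        rw [e1]
        have e3 : 0 ≤ P.nv v (σ (u i₀ j)) * X j ^ (-η) :=
          mul_nonneg hup.le (Real.rpow_nonneg hXp.le _)
        calc P.nv v (σ (u i₀ j)) * X j ^ (-η) = P.nv v (σ (u i₀ j)) * X j ^ (-η) * 1 :=
              (mul_one _).symm
          _ ≤ P.nv v (σ (u i₀ j)) * X j ^ (-η) * (X j ^ δ * P.nv v (σ (c i₀ j))) :=
              mul_le_mul_of_nonneg_left e2 e3
          _ = X j ^ (-η) * X j ^ δ * (P.nv v (σ (c i₀ j)) * P.nv v (σ (u i₀ j))) := by ring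
      have hδη : δ ≤ η / 2 := by
        rw [← hδT]
        nlinarith
      have hr1 : P.nv v (σ (∑ i, (fun _ : ι => (1 : M)) i * (c i j * u i j))) /
          P.nv v (σ (c i₀ j * u i₀ j)) ≤ 1 :=
        hr.trans (Real.rpow_le_one_of_one_le_of_nonpos h3 (by linarith))
      refine (fL_prod P v σ i₀ (fun _ => 1) (fun i => c i j * u i j) hv hxp hr1).trans ?_
      have hu1 : ∏ v' ∈ plc S, ∏ σ' : M ≃ₐ[ℚ] M, ∏ i, P.nv v' (σ' (u i j)) = 1 := by
        have e1 : ∏ i, ∏ v' ∈ plc S, ∏ σ' : M ≃ₐ[ℚ] M, P.nv v' (σ' (u i j)) =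
            ∏ v' ∈ plc S, ∏ σ' : M ≃ₐ[ℚ] M, ∏ i, P.nv v' (σ' (u i j)) :=
          Finset.prod_comm.trans (Finset.prod_congr rfl fun v' _ => Finset.prod_comm)
        rw [← e1]
        exact Finset.prod_eq_one fun i _ => hpfS (u i j) (h4 i)
      have hsplit : ∏ v' ∈ plc S, ∏ σ' : M ≃ₐ[ℚ] M, ∏ i, P.nv v' (σ' (c i j * u i j)) =
          ∏ v' ∈ plc S, ∏ σ' : M ≃ₐ[ℚ] M, ∏ i, P.nv v' (σ' (c i j)) := by
        have e1 : ∏ v' ∈ plc S, ∏ σ' : M ≃ₐ[ℚ] M, ∏ i, P.nv v' (σ' (c i j * u i j)) =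
            (∏ v' ∈ plc S, ∏ σ' : M ≃ₐ[ℚ] M, ∏ i, P.nv v' (σ' (c i j))) *
            ∏ v' ∈ plc S, ∏ σ' : M ≃ₐ[ℚ] M, ∏ i, P.nv v' (σ' (u i j)) := by
          rw [← Finset.prod_mul_distrib]
          refine Finset.prod_congr rfl fun v' hv' => ?_
          rw [← Finset.prod_mul_distrib]
          refine Finset.prod_congr rfl fun σ' _ => ?_
          rw [← Finset.prod_mul_distrib]
          refine Finset.prod_congr rfl fun i _ => ?_
          rw [map_mul, P.mul v' hv']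
        rw [e1, hu1, mul_one]
      have hcb : ∏ v' ∈ plc S, ∏ σ' : M ≃ₐ[ℚ] M, ∏ i, P.nv v' (σ' (c i j)) ≤ (X j ^ δ) ^ T := by
        calc ∏ v' ∈ plc S, ∏ σ' : M ≃ₐ[ℚ] M, ∏ i, P.nv v' (σ' (c i j))
            ≤ ∏ v' ∈ plc S, ∏ σ' : M ≃ₐ[ℚ] M, ∏ i : ι, X j ^ δ := by
              refine Finset.prod_le_prod (fun v' _ => Finset.prod_nonneg fun σ' _ =>
                Finset.prod_nonneg fun i _ => P.nn _ _) fun v' hv' => ?_
              refine Finset.prod_le_prod (fun σ' _ => Finset.prod_nonneg fun i _ => P.nn _ _)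
                fun σ' _ => ?_
              exact Finset.prod_le_prod (fun i _ => P.nn _ _) fun i _ => h1 v' hv' σ' i
          _ = (X j ^ δ) ^ T := by
              rw [Finset.prod_const, Finset.prod_const, Finset.prod_const, Finset.card_univ,
                Finset.card_univ, ← pow_mul, ← pow_mul, hT]
              congr 1
              ring
      have hpow : (X j ^ δ) ^ T = X j ^ (δ * T) := by
        rw [← Real.rpow_natCast, ← Real.rpow_mul hXp.le]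
      rw [hsplit]
      have hcb0 : 0 ≤ (X j ^ δ) ^ T := pow_nonneg (Real.rpow_nonneg hXp.le _) _
      refine (mul_le_mul hcb hr (div_nonneg (P.nn _ _) hxp.le) hcb0).trans ?_
      rw [hpow, ← Real.rpow_add hXp]
      apply Real.rpow_le_rpow_of_exponent_le h3
      nlinarith [hδT])
  exact ⟨a, ha, hrel⟩

end Pool.Agent.Helper8.SUBW
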