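import Pool.Agent.Helper8.SUBW.CSTW
import Pool.Agent.Helper15.SUB.AV

/-!
Project SUBW, row MODW: if the sum is an integer of polynomial size and the terms are linearly
independent over the constants, then the terms are moderate.
-/

set_option autoImplicit false

namespace Pool.Agent.Helper8.SUBW

open Filter Finset Matrix Pool.Agent.Helper70.SUB Pool.Agent.Helper77.SUBK
  Pool.Agent.Helper70.SUBL Pool.Agent.Helper70.SUBW

/-- a sequence which is larger than every power of `X` -/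
theorem pow_le_of_big (φ : Ultrafilter ℕ) (X H : ℕ → ℝ) (hX : Tendsto X (φ : Filter ℕ) atTop)
    (hb : ∀ A : ℝ, 0 < A → ∀ᶠ j in (φ : Filter ℕ), X j ^ A < H j) (B ε : ℝ) (hε : 0 < ε) :
    ∀ᶠ j in (φ : Filter ℕ), X j ^ B ≤ H j ^ ε := by
  have hX1 : ∀ᶠ j in (φ : Filter ℕ), (1 : ℝ) ≤ X j := hX.eventually_ge_atTop 1
  have hA : 0 < max B 1 / ε := div_pos (lt_of_lt_of_le one_pos (le_max_right _ _)) hε
  filter_upwards [hb _ hA, hX1] with j h1 h2
  have hXp : 0 ≤ X j := by linarith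
  calc X j ^ B ≤ X j ^ (max B 1) :=
        Real.rpow_le_rpow_of_exponent_le h2 (le_max_left _ _)
    _ = (X j ^ (max B 1 / ε)) ^ ε := by
        rw [← Real.rpow_mul hXp, div_mul_cancel₀ _ hε.ne']
    _ ≤ H j ^ ε := Real.rpow_le_rpow (Real.rpow_nonneg hXp _) h1.le hε.le

theorem MODW (hSUB : ST_SUBTU) (hSLW : ST_SLW) (hPRK : ST_PRK) : ST_MODW := by
  intro M _ _ _ S P φ X ι _ _ c u x B hSp hX hc hc0 hu hx hind i1
  classical
  by_contra hnot
  obtain ⟨-, -, -, -, s5, s6, -, -, -, -, -, s12, -⟩ := hSLW M S P φ X hSp hX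
  obtain ⟨-, hpfS, -⟩ := hPRK M S P hSp
  have hX1 : ∀ᶠ j in (φ : Filter ℕ), (1 : ℝ) ≤ X j := hX.eventually_ge_atTop 1
  -- the place where the height is attained
  set T0 : Finset (ι × Option ℕ × (M ≃ₐ[ℚ] M)) :=
    (Finset.univ : Finset ι) ×ˢ (plc S) ×ˢ (Finset.univ : Finset (M ≃ₐ[ℚ] M)) with hT0
  have hne : T0.Nonempty := ⟨(i1, none, 1), by
    simp only [hT0, Finset.mem_product, Finset.mem_univ, true_and, and_true]
    exact mem_none⟩
  have hex : ∀ᶠ j in (φ : Filter ℕ), ∃ t ∈ (T0 : Set (ι × Option ℕ × (M ≃ₐ[ℚ] M))),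
      ∀ t' ∈ T0, P.nv t'.2.1 (t'.2.2 (u t'.1 j)) ≤ P.nv t.2.1 (t.2.2 (u t.1 j)) := by
    refine Filter.Eventually.of_forall fun j => ?_
    obtain ⟨t, ht, h⟩ := Finset.exists_max_image T0
      (fun t => P.nv t.2.1 (t.2.2 (u t.1 j))) hne
    exact ⟨t, ht, h⟩
  rw [Ultrafilter.eventually_exists_mem_iff T0.finite_toSet] at hex
  obtain ⟨⟨i₀, v, σ⟩, ht, hmax⟩ := hex
  have hv : v ∈ plc S := by
    have h1 : (i₀, v, σ) ∈ T0 := ht
    simp only [hT0, Finset.mem_product, Finset.mem_univ, true_and, and_true] at h1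
    exact h1
  have hmax' : ∀ᶠ j in (φ : Filter ℕ), ∀ (i : ι), ∀ v' ∈ plc S, ∀ σ' : M ≃ₐ[ℚ] M,
      P.nv v' (σ' (u i j)) ≤ P.nv v (σ (u i₀ j)) := by
    filter_upwards [hmax] with j hj i v' hv' σ'
    refine hj (i, v', σ') ?_
    simp only [hT0, Finset.mem_product, Finset.mem_univ, true_and, and_true]
    exact hv'
  set H : ℕ → ℝ := fun j => P.nv v (σ (u i₀ j)) with hH
  have hbig : ∀ A : ℝ, 0 < A → ∀ᶠ j in (φ : Filter ℕ), X j ^ A < H j := by
    intro A hA
    by_contra h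
    rw [← Ultrafilter.eventually_not] at h
    refine hnot ⟨hu i1, A, hA, ?_⟩
    filter_upwards [h, hmax'] with j h1 h2
    intro v' hv' σ'
    exact (h2 i1 v' hv' σ').trans (not_lt.mp h1)
  have hHt : Tendsto H (φ : Filter ℕ) atTop := by
    refine Filter.tendsto_atTop_mono' (φ : Filter ℕ) ?_ hX
    filter_upwards [hbig 1 one_pos] with j h1
    rw [Real.rpow_one] at h1
    exact h1.le
  have hpw := pow_le_of_big φ X H hX hbig
  have hSV : ∀ᶠ j in (φ : Filter ℕ), ∀ i, SV S (u i j) := Filter.eventually_all.mpr hu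
  have hcs : ∀ᶠ j in (φ : Filter ℕ), ∀ v' ∈ plc S, ∀ (σ' : M ≃ₐ[ℚ] M) (i : ι),
      P.nv v' (σ' (c i j)) ≤ X j ^ (1 : ℝ) := by
    rw [Filter.eventually_all_finset]
    intro v' hv'
    rw [Filter.eventually_all]
    intro σ'
    rw [Filter.eventually_all]
    intro i
    exact s5 (c i) (hc i) v' hv' σ' 1 one_pos
  have hlow : ∀ᶠ j in (φ : Filter ℕ), X j ^ (-(1 : ℝ)) ≤ P.nv v (σ (c i₀ j)) :=
    s6 (c i₀) (hc i₀) (hc0 i₀) v hv σ 1 one_pos
  set T : ℕ := (plc S).card * (Fintype.card (M ≃ₐ[ℚ] M) * Fintype.card ι) with hT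
  -- the value of the form with all coefficients one
  have hval : ∀ᶠ j in (φ : Filter ℕ),
      P.nv v (σ (∑ i, c i j * u i j)) ≤ X j ^ (max B 0) := by
    filter_upwards [hx, hX1] with j h1 h2
    rw [h1.1, map_intCast]
    cases hvv : v with
    | none =>
      rw [P.intCast mem_none]
      have e1 : av none ((x j : ℤ) : ℚ) = |(x j : ℝ)| := by
        show |(((x j : ℤ) : ℚ) : ℝ)| = _
        rw [Rat.cast_intCast]
      rw [e1]
      exact h1.2.trans (Real.rpow_le_rpow_of_exponent_le h2 (le_max_left _ _))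
    | some p =>
      have hp : p ∈ S := of_mem_some (hvv ▸ hv)
      refine (P.int_le Pool.Agent.Helper15.SUB.AV hSp hp (x j)).trans ?_
      exact Real.one_le_rpow h2 (le_max_right _ _)
  obtain ⟨a, ha, hrel⟩ := hSUB M S P ι (fL P v σ i₀ (fun _ => 1)) (1 / 2) 2 φ H
    (fun j i => c i j * u i j) ⟨i₀⟩ hSp
    (fun v' _ σ' => fL_det P v σ i₀ _ one_ne_zero v' σ')
    (fun v' _ σ' σ'' h => fL_con P v σ i₀ _ v' σ' σ'' h) (by norm_num) hHt
    (by
      intro ε' hε'
      filter_upwards [s12 ι Finset.univ c (fun i _ => hc i) 1 one_pos, hSV, hpw 1 ε' hε']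
        with j hD hj hle
      obtain ⟨D, hD0, hDle, hDi⟩ := hD
      refine ⟨D, hD0, hDle.trans hle, fun i => ?_⟩
      obtain ⟨n, hn, hni⟩ := (hj i).2.1
      refine ⟨n, hn, ?_⟩
      have h1 := (hDi i (Finset.mem_univ i)).mul hni
      have h2 : (n : M) * ((D : M) * (c i j * u i j)) = (D : M) * c i j * ((n : M) * u i j) := by
        ring
      rw [h2]
      exact h1)
    (by
      filter_upwards [hcs, hmax', hpw 1 1 one_pos] with j h1 h2 h3
      intro v' hv' σ' i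
      have hH0 : 0 ≤ H j := P.nn _ _
      rw [map_mul, P.mul v' hv']
      have e1 : H j ^ (2 : ℝ) = H j ^ (1 : ℝ) * H j := by
        rw [Real.rpow_one, Real.rpow_two, sq]
      rw [e1]
      exact mul_le_mul ((h1 v' hv' σ' i).trans h3) (h2 i v' hv' σ') (P.nn _ _)
        (Real.rpow_nonneg hH0 _))
    (by
      filter_upwards [hcs, hX1, hSV, hlow, hval, hpw (max B 0 + 1) 1 one_pos,
        hpw (T + (max B 0 + 1)) (1 / 2) (by norm_num), hHt.eventually_ge_atTop 1]
        with j h1 h3 h4 h5 h7 h8 h9 h10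
      have hXp : 0 < X j := by linarith
      have hHp : 0 < H j := by linarith
      have hcp : 0 < P.nv v (σ (c i₀ j)) := lt_of_lt_of_le (Real.rpow_pos_of_pos hXp _) h5
      have hxp : 0 < P.nv v (σ (c i₀ j * u i₀ j)) := by
        rw [map_mul, P.mul v hv]
        exact mul_pos hcp hHp
      have hone : (∑ i, (fun _ : ι => (1 : M)) i * (c i j * u i j)) = ∑ i, c i j * u i j :=
        Finset.sum_congr rfl fun i _ => one_mul _
      have hr : P.nv v (σ (∑ i, (fun _ : ι => (1 : M)) i * (c i j * u i j))) /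
          P.nv v (σ (c i₀ j * u i₀ j)) ≤ X j ^ (max B 0 + 1) * (H j)⁻¹ := by
        rw [hone, div_le_iff₀ hxp, map_mul, P.mul v hv]
        refine h7.trans ?_
        have e1 : X j ^ (max B 0) = X j ^ (max B 0 + 1) * (H j)⁻¹ *
            (X j ^ (-(1 : ℝ)) * H j) := by
          have e0 : X j ^ (max B 0) = X j ^ (max B 0 + 1) * X j ^ (-(1 : ℝ)) := by
            rw [← Real.rpow_add hXp]
            congr 1
            ring
          rw [e0]
          field_simp
        calc X j ^ (max B 0) = X j ^ (max B 0 + 1) * (H j)⁻¹ * (X j ^ (-(1 : ℝ)) * H j) := e1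
          _ ≤ X j ^ (max B 0 + 1) * (H j)⁻¹ * (P.nv v (σ (c i₀ j)) * H j) := by
              refine mul_le_mul_of_nonneg_left (mul_le_mul_of_nonneg_right h5 hHp.le) ?_
              exact mul_nonneg (Real.rpow_nonneg hXp.le _) (inv_nonneg.mpr hHp.le)
      have hr1 : P.nv v (σ (∑ i, (fun _ : ι => (1 : M)) i * (c i j * u i j))) /
          P.nv v (σ (c i₀ j * u i₀ j)) ≤ 1 := by
        refine hr.trans ?_
        rw [← div_eq_mul_inv, div_le_one hHp]
        rwa [Real.rpow_one] at h8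
      refine (fL_prod P v σ i₀ (fun _ => 1) (fun i => c i j * u i j) hv hxp hr1).trans ?_
      have hu1 : ∏ v' ∈ plc S, ∏ σ' : M ≃ₐ[ℚ] M, ∏ i, P.nv v' (σ' (u i j)) = 1 := by
        have e1 : ∏ i, ∏ v' ∈ plc S, ∏ σ' : M ≃ₐ[ℚ] M, P.nv v' (σ' (u i j)) =
            ∏ v' ∈ plc S, ∏ σ' : M ≃ₐ[ℚ] M, ∏ i, P.nv v' (σ' (u i j)) :=
          Finset.prod_comm.trans (Finset.prod_congr rfl fun v' _ => Finset.prod_comm)
        rw [← e1]
        exact Finset.prod_eq_one fun i _ => hpfS (u i j) (h4 i)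
      have hsplit : ∏ v' ∈ plc S, ∏ σ' : M ≃ₐ[ℚ] M, ∏ i, P.nv v' (σ' (c i j * u i j)) =
          ∏ v' ∈ plc S, ∏ σ' : M ≃ₐ[ℚ] M, ∏ i, P.nv v' (σ' (c i j)) := by
        have e1 : ∏ v' ∈ plc S, ∏ σ' : M ≃ₐ[ℚ] M, ∏ i, P.nv v' (σ' (c i j * u i j)) =
            (∏ v' ∈ plc S, ∏ σ' : M ≃ₐ[ℚ] M, ∏ i, P.nv v' (σ' (c i j))) *
            ∏ v' ∈ plc S, ∏ σ' : M ≃ₐ[ℚ] M, ∏ i, P.nv v' (σ' (u i j)) := by
          rw [← Finset.prod_mul_distrib]
          refine Finset.prod_congr rfl fun v' hv' => ?_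
          rw [← Finset.prod_mul_distrib]
          refine Finset.prod_congr rfl fun σ' _ => ?_
          rw [← Finset.prod_mul_distrib]
          refine Finset.prod_congr rfl fun i _ => ?_
          rw [map_mul, P.mul v' hv']
        rw [e1, hu1, mul_one]
      have hcb : ∏ v' ∈ plc S, ∏ σ' : M ≃ₐ[ℚ] M, ∏ i, P.nv v' (σ' (c i j)) ≤
          (X j ^ (1 : ℝ)) ^ T := by
        calc ∏ v' ∈ plc S, ∏ σ' : M ≃ₐ[ℚ] M, ∏ i, P.nv v' (σ' (c i j))
            ≤ ∏ v' ∈ plc S, ∏ σ' : M ≃ₐ[ℚ] M, ∏ i : ι, X j ^ (1 : ℝ) := by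
              refine Finset.prod_le_prod (fun v' _ => Finset.prod_nonneg fun σ' _ =>
                Finset.prod_nonneg fun i _ => P.nn _ _) fun v' hv' => ?_
              refine Finset.prod_le_prod (fun σ' _ => Finset.prod_nonneg fun i _ => P.nn _ _)
                fun σ' _ => ?_
              exact Finset.prod_le_prod (fun i _ => P.nn _ _) fun i _ => h1 v' hv' σ' i
          _ = (X j ^ (1 : ℝ)) ^ T := by
              rw [Finset.prod_const, Finset.prod_const, Finset.prod_const, Finset.card_univ,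
                Finset.card_univ, ← pow_mul, ← pow_mul, hT]
              congr 1
              ring
      have hpow : (X j ^ (1 : ℝ)) ^ T = X j ^ (T : ℝ) := by
        rw [Real.rpow_one, Real.rpow_natCast]
      rw [hsplit]
      have hcb0 : 0 ≤ (X j ^ (1 : ℝ)) ^ T := pow_nonneg (Real.rpow_nonneg hXp.le _) _
      refine (mul_le_mul hcb hr (div_nonneg (P.nn _ _) hxp.le) hcb0).trans ?_
      rw [hpow, ← mul_assoc, ← Real.rpow_add hXp]
      have e5 : H j ^ (-(1 / 2) : ℝ) = H j ^ (1 / 2 : ℝ) * (H j)⁻¹ := by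
        rw [← Real.rpow_neg_one (H j), ← Real.rpow_add hHp]
        congr 1
        norm_num
      rw [e5]
      exact mul_le_mul_of_nonneg_right h9 (inv_nonneg.mpr hHp.le))
  exact hind a ha hrel

end Pool.Agent.Helper8.SUBW
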